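import Pool.Agent.MP_669787_al.Example

namespace Pool.Agent.Results.MP_669787_al.NotNil

open Pool.Agent.MP_669787_al

theorem result :
    ∃ (A : Type) (_ : CommRing A) (φ : RingAut A) (R : Type) (_ : Ring R) (c : R → ℤ → A),
      IsSkewLaurentRing φ c ∧
      (IsSemisimpleRing (R ⧸ Ring.jacobson R) ∧ IsArtinianRing (R ⧸ Ring.jacobson R)) ∧
      ∃ a ∈ Ring.jacobson A, ¬ IsNilpotent a := by
  obtain ⟨R, inst, c, h⟩ := exists_skewLaurent (sh 1)
  obtain ⟨g, hg⟩ := exists_surj h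
  exact ⟨AA, inferInstance, sh 1, R, inst, c, h,
    ⟨g.isSemisimpleRing_of_surjective hg, hg.isArtinianRing⟩,
    elt, elt_mem_jacobson, elt_not_nilpotent⟩

end Pool.Agent.Results.MP_669787_al.NotNil
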