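import Pool.Agent.MP_669787_al.Rad

/-!
If `A((x, φ))` is semilocal, every monomial `a x ^ (-n)` with `n > 0` is strongly `π`-regular in
the skew Laurent polynomial ring, and nilpotent when `a` lies in the radical of `A`. The `k`-th
power of the monomial is `P k` times the power of `x` of degree `-k n`.
-/

open Pool.Agent.MP_669787_al Sp

namespace Pool.Agent.Results.MP_669787_al.PiRegular

theorem result {A R : Type} [Ring A] [Ring R] (φ : RingAut A) (c : R → ℤ → A)
    (h : IsSkewLaurentRing φ c) (hR : IsSemisimpleRing (R ⧸ Ring.jacobson R))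
    (a : A) (n : ℤ) (hn : 0 < n) (P : ℕ → A)
    (hP : ∀ k, P k = ((List.range k).map fun i : ℕ => (φ ^ (-(i * n))) a).prod) :
    ∃ M : ℕ, (∃ b, P M = P (M + 1) * b) ∧ (∃ b, P M = b * (φ ^ n) (P (M + 1))) ∧
      (a ∈ Ring.jacobson A → P M = 0) := by
  obtain ⟨M, b, b', t, t'⟩ := pireg' h hR a hn
  rw [← hP, ← hP] at t t'
  refine ⟨M, ⟨b, t⟩, ⟨b', t'⟩, fun ha => ?_⟩
  rw [hP (M + 1), List.range_succ, List.map_append, List.prod_append, List.map_singleton,
    List.prod_singleton, mul_assoc, ← hP] at t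
  have u := unit_one_add
    (neg_mem ((Ring.jacobson A).mul_mem_right b (aut_mem (φ ^ (-(M * n))) ha)))
  exact u.mul_left_eq_zero.1 (by rw [mul_add, mul_one, mul_neg, ← t, add_neg_cancel])

end Pool.Agent.Results.MP_669787_al.PiRegular
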