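import Pool.Agent.MP_669787_al.Rad

/-!
Semilocal skew Laurent series rings: `R = A((x, φ))` is semilocal iff it is semiperfect iff `A` is
semilocal and `J(R) = J(A)((x, φ))` iff `A` is semilocal and `J(A) ⊆ J(R)`.
-/

open Pool.Agent.MP_669787_al Sp

namespace Pool.Agent.Results.MP_669787_al.Radical

theorem result {A R : Type} [Ring A] [Ring R] (φ : RingAut A) (c : R → ℤ → A)
    (h : IsSkewLaurentRing φ c) :
    List.TFAE [IsSemisimpleRing (R ⧸ Ring.jacobson R),
      IsSemisimpleRing (R ⧸ Ring.jacobson R) ∧ ∀ e : R ⧸ Ring.jacobson R, IsIdempotentElem e →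
        ∃ f : R, IsIdempotentElem f ∧ Ideal.Quotient.mk (Ring.jacobson R) f = e,
      IsSemisimpleRing (A ⧸ Ring.jacobson A) ∧
        ∀ r : R, r ∈ Ring.jacobson R ↔ ∀ n, c r n ∈ Ring.jacobson A,
      IsSemisimpleRing (A ⧸ Ring.jacobson A) ∧
        ∀ r : R, (∀ n, n ≠ 0 → c r n = 0) → c r 0 ∈ Ring.jacobson A → r ∈ Ring.jacobson R] := by
  tfae_have 1 → 3 := fun hR => by
    have hA := semi_base h hR
    have hj := rad_le h fun a ha => mo_jac h hR ha 0
    exact ⟨hA, fun r => ⟨fun hr => le_rad h hA hj hr, fun hr => hj hr⟩⟩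
  tfae_have 3 → 4 := fun H => ⟨H.1, fun r h1 h2 => (H.2 r).2 fun n => by
    by_cases e : n = 0
    · rwa [e]
    · rw [h1 n e]; exact zero_mem _⟩
  tfae_have 4 → 1 := fun H => by
    have hj := rad_le h fun a ha => H.2 (mo h a 0)
      (fun n hn => by rw [c_mo h, Pi.single_eq_of_ne hn]) (by rwa [c_mo h, Pi.single_eq_same])
    refine semi_of_idem fun I => ?_
    obtain ⟨e, he, u, rfl⟩ := gen' h H.1 hj I
    exact ⟨_, gen_idem h he hj u, rfl⟩
  tfae_have 2 → 1 := fun H => H.1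
  tfae_have 1 → 2 := fun hR => ⟨hR, fun ε hε => by
    obtain ⟨⟨hA, -⟩, lift⟩ := Semiperfect.result φ c h hR
    have hj := rad_le h fun a ha => mo_jac h hR ha 0
    let m := Ideal.Quotient.mk (Ring.jacobson R)
    obtain ⟨e, he, u, eq⟩ := gen' h hA hj (Ideal.span {ε})
    have hf := gen_idem h he hj u
    obtain ⟨a, ha⟩ := Ideal.mem_span_singleton'.1 (eq.le (Ideal.mem_span_singleton_self ε))
    obtain ⟨b, hb⟩ := Ideal.mem_span_singleton'.1 (eq.ge (Ideal.mem_span_singleton_self _))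
    obtain ⟨v, hv⟩ := conj_of hε.eq hf.eq (by rw [← ha, mul_assoc, hf.eq])
      (by rw [← hb, mul_assoc, hε.eq])
    obtain ⟨f, f1, f2⟩ := lift (Ideal.Quotient.mk _ e) (Ideal.Quotient.eq.2 he)
    obtain ⟨w, hw⟩ := Ideal.Quotient.mk_surjective v.1
    obtain ⟨w, rfl⟩ := unit_of_mk (hw ▸ v.isUnit)
    have fe : m (io h f) = m (io h e) := Ideal.Quotient.eq.2 (by
      rw [← map_sub]; exact hj (mo_rad h (Ideal.Quotient.eq.1 f2) 0))
    refine ⟨w * (↑u⁻¹ * io h f * u) * ↑w⁻¹, ?_, ?_⟩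
    · change _ * _ = _
      simp only [mul_assoc, Units.inv_mul_cancel_left, Units.mul_inv_cancel_left]
      rw [← mul_assoc (io h f), ← map_mul, f1.eq]
    · change m _ = _
      have e2 : m (↑u⁻¹ * io h f * u) = m (↑u⁻¹ * io h e * u) := by
        simp only [map_mul, fe]
      rw [map_mul, map_mul, e2, hw, hv.eq, mul_assoc, ← hw, ← map_mul, Units.mul_inv, map_one,
        mul_one]⟩
  tfae_finish

end Pool.Agent.Results.MP_669787_al.Radical
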