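import Pool.Agent.MP_669787_al.Skew

/-!
If the skew Laurent series ring `A((x, φ))` is semilocal, then `A` is semiperfect.

Semilocality passes to `A` and to the series in `x ^ m` along conditional expectations.
For an idempotent `p` modulo the radical, some `φ ^ m` fixes its conjugacy class; a unit of the
ring of series in `x ^ m` that is `p + (1 - p) v x ^ m` modulo the radical gives an idempotent
matrix over `A` (projection onto the lattice it spans), and a corner of that matrix lifts `p`.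
-/

namespace Pool.Agent.MP_669787_al.Sp

section general
variable {R : Type} [Ring R]

theorem left_inv {j : R} (hj : j ∈ Ring.jacobson R) : ∃ z, z * (1 + j) = 1 := by
  rw [← Ideal.jacobson_bot, Ideal.mem_jacobson_iff] at hj
  obtain ⟨z, hz⟩ := hj 1
  rw [Ideal.mem_bot, mul_one, sub_eq_zero] at hz
  exact ⟨z, by rw [mul_add, mul_one, add_comm, hz]⟩

theorem unit_one_add {j : R} (hj : j ∈ Ring.jacobson R) : IsUnit (1 + j) := by
  obtain ⟨z, hz⟩ := left_inv hj
  obtain ⟨w, hw⟩ := left_inv ((Ring.jacobson R).mul_mem_left (-z) hj)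
  have e : 1 + -z * j = z := by rw [← hz]; noncomm_ring
  rw [e] at hw
  have e2 : w = 1 + j := left_inv_eq_right_inv hw hz
  exact ⟨⟨1 + j, z, e2 ▸ hw, hz⟩, rfl⟩

/-- semilocality descends along a conditional expectation -/
theorem descend {S : Type} [Ring S] (ι : S →+* R) (π : R →+ S)
    (h1 : ∀ r s, π (r * ι s) = π r * s) (h2 : π 1 = 1)
    (hR : IsSemisimpleRing (R ⧸ Ring.jacobson R)) : IsSemisimpleRing (S ⧸ Ring.jacobson S) := by
  classical
  let ex : Ideal S → Ideal R := fun M =>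
    { carrier := {r | ∀ t, π (t * r) ∈ M}
      add_mem' := fun {a b} ha hb t => by rw [mul_add, map_add]; exact M.add_mem (ha t) (hb t)
      zero_mem' := fun t => by rw [mul_zero, map_zero]; exact M.zero_mem
      smul_mem' := fun a r hr t => by rw [smul_eq_mul, ← mul_assoc]; exact hr _ }
  have hι : ∀ (M : Ideal S) s, s ∈ M → ι s ∈ ex M := fun M s hs t => by
    rw [h1]; exact M.mul_mem_left _ hs
  let F : Finset {M : Ideal S // IsCoatom M} → Ideal (R ⧸ Ring.jacobson R) := fun s =>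
    (ex (s.inf Subtype.val)).map (Ideal.Quotient.mk _)
  obtain ⟨_, ⟨s, rfl⟩, hmin⟩ := (wellFounded_lt (α := Ideal (R ⧸ Ring.jacobson R))).has_min
    (Set.range F) ⟨_, ∅, rfl⟩
  have key : ∀ M : {M : Ideal S // IsCoatom M}, s.inf Subtype.val ≤ M.1 := by
    intro M
    by_contra hn
    have top : M.1 ⊔ s.inf Subtype.val = ⊤ := M.2.2 _ (left_lt_sup.2 hn)
    obtain ⟨b, hb, a, ha, hab⟩ := Submodule.mem_sup.1 (top ▸ Submodule.mem_top (x := (1 : S)))
    have le : F (insert M s) ≤ F s := Ideal.map_mono fun r hr t => by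
      have := hr t
      rw [Finset.inf_insert] at this
      exact this.2
    have eq : F (insert M s) = F s := le.eq_of_not_lt (hmin _ ⟨_, rfl⟩)
    have m : Ideal.Quotient.mk _ (ι a) ∈ F (insert M s) := eq ▸ Ideal.mem_map_of_mem _ (hι _ a ha)
    obtain ⟨r, hr, e⟩ := (Ideal.mem_map_iff_of_surjective _ Ideal.Quotient.mk_surjective).1 m
    obtain ⟨z, hz⟩ := left_inv (Ideal.Quotient.eq.1 e)
    have m1 : r ∈ ex M.1 := fun t => by
      have := hr t
      rw [Finset.inf_insert] at this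
      exact this.1
    have e1 : 1 + (r - ι a) = ι b + r := by rw [← map_one ι, ← hab, map_add]; abel
    have m2 := (ex M.1).mul_mem_left z ((ex M.1).add_mem (hι _ b hb) m1) 1
    rw [← e1, hz, mul_one, h2] at m2
    exact M.2.1 ((Ideal.eq_top_iff_one _).2 m2)
  have _ (m : s) : IsSimpleModule S (S ⧸ m.1.1) := isSimpleModule_iff_isCoatom.mpr m.1.2
  let f : S →ₗ[S] ∀ m : s, S ⧸ m.1.1 := LinearMap.pi fun m => Submodule.mkQ m.1.1
  have hk : LinearMap.ker f = Ring.jacobson S := by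
    refine le_antisymm (fun x hx => Submodule.mem_sInf.2 fun M hM => key ⟨M, hM⟩ ?_) fun x hx => ?_
    · exact Submodule.mem_finsetInf.mpr fun i hi =>
        (Submodule.Quotient.mk_eq_zero i.1).mp (congr_fun hx ⟨i, hi⟩)
    · exact funext fun m => (Submodule.Quotient.mk_eq_zero _).2 (Submodule.mem_sInf.1 hx _ m.1.2)
  have : IsSemisimpleModule S (S ⧸ Ring.jacobson S) :=
    .of_injective ((Ring.jacobson S).liftQ f hk.ge)
      (LinearMap.ker_eq_bot.1 (Submodule.ker_liftQ_eq_bot _ _ _ hk.le))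
  let g : (S ⧸ Ring.jacobson S) →ₛₗ[Ideal.Quotient.mk (Ring.jacobson S)] (S ⧸ Ring.jacobson S) :=
    { toFun := id, map_add' := fun _ _ => rfl, map_smul' := fun _ _ => rfl }
  exact (g.isSemisimpleModule_iff_of_bijective Function.bijective_id).1 this

/-- units lift in a semilocal ring -/
theorem lift_unit (hR : IsSemisimpleRing (R ⧸ Ring.jacobson R)) (I : Ideal R)
    (hI : ∀ x ∈ I, ∀ y, x * y ∈ I) {g h : R} (hg : h * g - 1 ∈ I) :
    ∃ u : Rˣ, (u : R) - g ∈ I := by
  let m := Ideal.Quotient.mk (Ring.jacobson R)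
  obtain ⟨ε, hε, e⟩ := IsSemisimpleRing.ideal_eq_span_idempotent (I.map m)
  have k : ∀ t ∈ I, m t * ε = m t := fun t ht => by
    obtain ⟨a, ha⟩ := Ideal.mem_span_singleton'.1 (e ▸ Ideal.mem_map_of_mem m ht)
    rw [← ha, mul_assoc, hε.eq]
  obtain ⟨η, hη, rfl⟩ := (Ideal.mem_map_iff_of_surjective m Ideal.Quotient.mk_surjective).1
    (e ▸ Ideal.mem_span_singleton_self ε)
  have a1 := k _ hg
  have a2 := k _ (hI _ hη g)
  have a3 := hε.eq
  simp only [map_sub, map_mul, map_one] at a1 a2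
  have b1 : m (h - h * η + η) * m (g * (1 - η) + η) = 1 := by
    simp only [map_sub, map_mul, map_one, map_add]
    have c1 : m η * (m g * (1 - m η) + m η) = m η := by
      rw [mul_add, ← mul_assoc, mul_sub, a2, mul_one, sub_self, zero_add, a3]
    have c2 : m h * (m g * (1 - m η) + m η) = 1 - m η + m h * m η := by
      have : m h * m g * (1 - m η) = 1 - m η := by
        rw [← sub_eq_zero, show m h * m g * (1 - m η) - (1 - m η) =
          (m h * m g - 1) - (m h * m g - 1) * m η by noncomm_ring, a1, sub_self]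
      rw [mul_add, ← mul_assoc, this]
    rw [add_mul, sub_mul, mul_assoc, c1, c2]
    abel
  have b2 := mul_eq_one_symm b1
  rw [← map_mul, ← map_one m] at b1 b2
  have u1 := unit_one_add (Ideal.Quotient.eq.1 b1)
  have u2 := unit_one_add (Ideal.Quotient.eq.1 b2)
  rw [add_sub_cancel] at u1 u2
  obtain ⟨v, hv⟩ := u1.exists_left_inv
  obtain ⟨w, hw⟩ := u2.exists_right_inv
  rw [← mul_assoc] at hv
  rw [mul_assoc] at hw
  refine ⟨⟨g * (1 - η) + η, _, hw, ?_⟩, ?_⟩
  · rw [← left_inv_eq_right_inv hv hw, hv]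
  · change g * (1 - η) + η - g ∈ I
    rw [show g * (1 - η) + η - g = (1 - g) * η by noncomm_ring]
    exact I.mul_mem_left _ hη

theorem conj_of {e f : R} (he : e * e = e) (hf : f * f = f) (h1 : e * f = e) (h2 : f * e = f) :
    IsConj f e := by
  have a : (e - f) * (e - f) = 0 := by rw [sub_mul, mul_sub, mul_sub, he, hf, h1, h2]; abel
  refine ⟨⟨1 + (e - f), 1 - (e - f), ?_, ?_⟩, ?_⟩
  · rw [show (1 + (e - f)) * (1 - (e - f)) = 1 - (e - f) * (e - f) by noncomm_ring, a, sub_zero]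
  · rw [show (1 - (e - f)) * (1 + (e - f)) = 1 - (e - f) * (e - f) by noncomm_ring, a, sub_zero]
  · change (1 + (e - f)) * f = e * (1 + (e - f))
    rw [add_mul, sub_mul, mul_add, mul_sub, he, hf, h1]
    noncomm_ring

/-- an idempotent is conjugate to the projection along any complement of its left ideal -/
theorem proj {e : R} (he : e * e = e) {C : Ideal R} (h : IsCompl (Ideal.span {e}) C) :
    ∃ g ∈ C, (∀ x ∈ C, x * g = x) ∧ IsConj (1 - g) e := by
  obtain ⟨f, hf, g, hg, hfg⟩ := Submodule.mem_sup.1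
    (h.sup_eq_top ▸ Submodule.mem_top (x := (1 : R)))
  have z : ∀ x ∈ Ideal.span {e}, x ∈ C → x = 0 := fun x h1 h2 =>
    (Submodule.mem_bot R).1 (h.inf_eq_bot ▸ ⟨h1, h2⟩)
  have e1 : ∀ x : R, x * f + x * g = x := fun x => by rw [← mul_add, hfg, mul_one]
  have k1 : ∀ x ∈ Ideal.span {e}, x * f = x := fun x hx => by
    have := z (x * g) (by
      rw [eq_sub_of_add_eq' (e1 x)]
      exact Ideal.sub_mem _ hx (Ideal.mul_mem_left _ _ hf)) (C.mul_mem_left _ hg)
    have e2 := e1 x
    rwa [this, add_zero] at e2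
  refine ⟨g, hg, fun x hx => ?_, ?_⟩
  · have := z (x * f) (Ideal.mul_mem_left _ _ hf) (by
      rw [eq_sub_of_add_eq (e1 x)]
      exact C.sub_mem hx (C.mul_mem_left _ hg))
    have e2 := e1 x
    rwa [this, zero_add] at e2
  · rw [← eq_sub_of_add_eq hfg]
    obtain ⟨t, ht⟩ := Ideal.mem_span_singleton'.1 hf
    exact conj_of he (k1 f hf) (k1 e (Ideal.mem_span_singleton_self e))
      (by rw [← ht, mul_assoc, he])

theorem compl_fin (T : Finset (Ideal R)) (hT : ∀ a ∈ T, IsAtom a) (L : Ideal R) :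
    ∃ T' ⊆ T, Disjoint L (T'.sup id) ∧ T.sup id ≤ L ⊔ T'.sup id := by
  classical
  induction T using Finset.induction_on with
  | empty => exact ⟨∅, subset_rfl, by simp, by simp⟩
  | insert a T ha ih =>
    obtain ⟨T', h1, h2, h3⟩ := ih fun b hb => hT b (Finset.mem_insert_of_mem hb)
    by_cases h : a ≤ L ⊔ T'.sup id
    · exact ⟨T', h1.trans (Finset.subset_insert _ _), h2, by
        rw [Finset.sup_insert]; exact sup_le h h3⟩
    · refine ⟨insert a T', Finset.insert_subset_insert _ h1, ?_, ?_⟩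
      · rw [Finset.sup_insert, id, sup_comm]
        exact h2.disjoint_sup_right_of_disjoint_sup_left
          ((hT a (Finset.mem_insert_self _ _)).not_le_iff_disjoint.1 h).symm
      · rw [Finset.sup_insert, Finset.sup_insert]
        exact sup_le (le_sup_left.trans le_sup_right) (h3.trans (sup_le_sup_left le_sup_right _))

/-- a semisimple ring has finitely many conjugacy classes of idempotents -/
theorem pigeon [IsSemisimpleRing R] (e : ℕ → R) (he : ∀ i, e i * e i = e i) :
    ∃ i j, i < j ∧ IsConj (e i) (e j) := by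
  have hc : IsCompactElement (⊤ : Ideal R) :=
    (Submodule.fg_iff_compact _).1 Module.Finite.fg_top
  obtain ⟨T, hT, hle⟩ := (CompleteLattice.isCompactElement_iff_exists_le_sSup_of_le_sSup _ _).1 hc
    {a | IsAtom a} (sSup_atoms_eq_top (α := Ideal R)).ge
  choose f h1 h2 h3 using fun i => compl_fin T (fun a ha => hT ha) (Ideal.span {e i})
  obtain ⟨i, j, hij, hf⟩ := Finite.exists_ne_map_eq_of_infinite
    (fun i => (⟨f i, Finset.mem_powerset.2 (h1 i)⟩ : T.powerset))
  have hf' : f i = f j := congrArg Subtype.val hf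
  obtain ⟨g, a1, a2, a3⟩ := proj (he i) ⟨h2 i, codisjoint_iff_le_sup.2 (hle.trans (h3 i))⟩
  obtain ⟨g', b1, b2, b3⟩ := proj (he j) ⟨h2 j, codisjoint_iff_le_sup.2 (hle.trans (h3 j))⟩
  rw [← hf'] at b1 b2
  obtain ⟨u, hu⟩ := conj_of (a2 g a1) (b2 g' b1) (b2 g a1) (a2 g' b1)
  have c : IsConj (1 - g') (1 - g) := ⟨u, by
    change (u : R) * (1 - g') = (1 - g) * u
    rw [mul_sub, sub_mul, hu.eq, mul_one, one_mul]⟩
  have c' : IsConj (e i) (e j) := (a3.symm.trans c.symm).trans b3
  rcases hij.lt_or_gt with h | h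
  · exact ⟨i, j, h, c'⟩
  · exact ⟨j, i, h, c'.symm⟩

/-- moving an idempotent into position -/
theorem cut_down (K : Ideal R) (hK : ∀ x ∈ K, ∀ y, x * y ∈ K) (hu : ∀ x ∈ K, IsUnit (1 + x))
    {E a b : R} (hE : E * E = E) (ha : a * a = a) (hb : b * b = b) (hab : a * b = 0)
    (hba : b * a = 0) (h1 : (E - 1) * a ∈ K) (h2 : E * b ∈ K) :
    ∃ E', E' * E' = E' ∧ E' - E ∈ K ∧ E' * a = a ∧ E' * b = 0 := by
  have m := K.sub_mem h1 h2
  obtain ⟨u, e⟩ := hu _ m
  have e1 : (u : R) * a = E * a := by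
    rw [e, add_mul, sub_mul, mul_assoc, mul_assoc, ha, hba]; noncomm_ring
  have e2 : (u : R) * b = b - E * b := by
    rw [e, add_mul, sub_mul, mul_assoc, mul_assoc, hb, hab]; noncomm_ring
  refine ⟨↑u⁻¹ * E * u, ?_, ?_, ?_, ?_⟩
  · simp only [mul_assoc, Units.mul_inv_cancel_left]
    rw [← mul_assoc E, hE]
  · have : ↑u⁻¹ * E * u - E = ↑u⁻¹ * (E * u - u * E) := by
      rw [mul_sub, Units.inv_mul_cancel_left, mul_assoc]
    rw [this, e, show ∀ x : R, E * (1 + x) - (1 + x) * E = E * x - x * E from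
      fun x => by noncomm_ring]
    exact K.mul_mem_left _ (K.sub_mem (K.mul_mem_left _ m) (hK _ m _))
  · rw [mul_assoc, mul_assoc, e1, ← mul_assoc E, hE, ← e1, Units.inv_mul_cancel_left]
  · rw [mul_assoc, mul_assoc, e2, mul_sub, ← mul_assoc E, hE, sub_self, mul_zero]

/-- an idempotent matrix that is diagonal modulo the radical -/
theorem corner {n : Type} [Fintype n] [DecidableEq n] (E : Matrix n n R) (hE : E * E = E) (o : n)
    (P : n → Prop) [DecidablePred P]
    (h : ∀ i k, k ≠ o → E i k - (if i = k ∧ P k then 1 else 0) ∈ Ring.jacobson R) :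
    ∃ f : R, f * f = f ∧ f - E o o ∈ Ring.jacobson R := by
  obtain ⟨E', a1, a2, a3, a4⟩ := cut_down ((Ring.jacobson R).matrix n)
    (fun x hx y i k => by
      rw [Matrix.mul_apply]
      exact Ideal.sum_mem _ fun l _ => Ideal.mul_mem_right _ _ (hx i l))
    (fun x hx => unit_one_add (by
      rw [← Ideal.jacobson_bot, ← Ideal.matrix_bot]
      exact Ideal.matrix_jacobson_le _ (by rwa [Ideal.jacobson_bot])))
    (a := Matrix.diagonal fun k => if k ≠ o ∧ P k then 1 else 0)
    (b := Matrix.diagonal fun k => if k ≠ o ∧ ¬ P k then 1 else 0) hE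
    (by rw [Matrix.diagonal_mul_diagonal]; congr 1; ext k; split_ifs <;> simp)
    (by rw [Matrix.diagonal_mul_diagonal]; congr 1; ext k; split_ifs <;> simp)
    (by rw [Matrix.diagonal_mul_diagonal, ← Matrix.diagonal_zero]; congr 1; ext k
        by_cases h : P k <;> simp [h])
    (by rw [Matrix.diagonal_mul_diagonal, ← Matrix.diagonal_zero]; congr 1; ext k
        by_cases h : P k <;> simp [h])
    (fun i k => by
      rw [Matrix.mul_diagonal]
      split_ifs with c
      · simpa [c.2, Matrix.one_apply] using h i k c.1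
      · simp)
    (fun i k => by
      rw [Matrix.mul_diagonal]
      split_ifs with c
      · simpa [c.2] using h i k c.1
      · simp)
  refine ⟨E' o o, ?_, a2 o o⟩
  have z : ∀ k, k ≠ o → E' o k = 0 := fun k hk => by
    have b3 := congrFun (congrFun a3 o) k
    have b4 := congrFun (congrFun a4 o) k
    rw [Matrix.mul_diagonal] at b3 b4
    by_cases c : P k
    · simpa [hk, c, Matrix.diagonal_apply_ne _ hk.symm] using b3
    · simpa [hk, c] using b4
  have := congrFun (congrFun a1 o) o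
  rwa [Matrix.mul_apply, Finset.sum_eq_single o (fun k _ hk => by rw [z k hk, zero_mul])
    (by simp)] at this

end general

section laurent
variable {A R : Type} [Ring A] [Ring R] {φ : RingAut A} {c : R → ℤ → A}
  (h : IsSkewLaurentRing φ c)

/-- the monomial `a x ^ n` -/
noncomputable def mo (a : A) (n : ℤ) : R :=
  ((h.2.1 (Pi.single n a)).2 ⟨n, fun _ hi => Pi.single_eq_of_ne hi.ne _⟩).choose

theorem c_mo (a : A) (n : ℤ) : c (mo h a n) = Pi.single n a :=
  ((h.2.1 (Pi.single n a)).2 ⟨n, fun _ hi => Pi.single_eq_of_ne hi.ne _⟩).choose_spec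

theorem c_mo_mul (a : A) (n : ℤ) (r : R) (k : ℤ) :
    c (mo h a n * r) k = a * (φ ^ n) (c r (k - n)) := by
  rw [h.2.2.2, finsum_eq_single _ n fun i hi => by rw [c_mo h, Pi.single_eq_of_ne hi, zero_mul],
    c_mo h, Pi.single_eq_same]

theorem mo_mul_mo (a b : A) (n k : ℤ) : mo h a n * mo h b k = mo h (a * (φ ^ n) b) (n + k) := by
  refine h.1 (funext fun i => ?_)
  rw [c_mo_mul h, c_mo h, c_mo h]
  by_cases e : i = n + k
  · rw [e, add_sub_cancel_left, Pi.single_eq_same, Pi.single_eq_same]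
  · rw [Pi.single_eq_of_ne e, Pi.single_eq_of_ne (by omega), map_zero, mul_zero]

theorem mo_one : mo h 1 0 = 1 := h.1 (by rw [c_mo h, h.c_one])

theorem mo_add (a b : A) (n : ℤ) : mo h (a + b) n = mo h a n + mo h b n :=
  h.1 (funext fun i => by rw [h.2.2.1, c_mo h, c_mo h, c_mo h, Pi.single_add, Pi.add_apply])

theorem mo_sub (a b : A) (n : ℤ) : mo h (a - b) n = mo h a n - mo h b n :=
  h.1 (funext fun i => by rw [h.c_sub, c_mo h, c_mo h, c_mo h, Pi.single_sub, Pi.sub_apply])

/-- the constants -/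
noncomputable def io : A →+* R where
  toFun a := mo h a 0
  map_one' := mo_one h
  map_mul' a b := by rw [mo_mul_mo h]; simp
  map_zero' := h.1 (funext fun i => by rw [c_mo h, h.c_zero]; simp)
  map_add' a b := mo_add h a b 0

theorem c_io_mul (a : A) (r : R) (k : ℤ) : c (io h a * r) k = a * c r k := by
  change c (mo h a 0 * r) k = _
  rw [c_mo_mul h]
  simp

include h in
theorem cut_ex (P : ℤ → Prop) [DecidablePred P] (r : R) :
    ∃ s, c s = fun n => if P n then c r n else 0 :=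
  (h.2.1 _).2 (let ⟨n, hn⟩ := h.bdd r; ⟨n, fun i hi => by simp [hn i hi]⟩)

theorem cut_spec (P : ℤ → Prop) [DecidablePred P] (r : R) (n : ℤ) :
    c (cut_ex h P r).choose n = if P n then c r n else 0 := congrFun (cut_ex h P r).choose_spec n

/-- keeping the terms whose degree satisfies `P` -/
noncomputable def cut (P : ℤ → Prop) [DecidablePred P] : R →+ R :=
  AddMonoidHom.mk' (fun r => (cut_ex h P r).choose) fun r s => h.1 (funext fun n => by
    rw [h.2.2.1, cut_spec h, cut_spec h, cut_spec h, h.2.2.1]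
    split_ifs <;> simp)

theorem c_cut (P : ℤ → Prop) [DecidablePred P] (r : R) (n : ℤ) :
    c (cut h P r) n = if P n then c r n else 0 := cut_spec h P r n

theorem cut_io (P : ℤ → Prop) [DecidablePred P] (a : A) (r : R) :
    cut h P (io h a * r) = io h a * cut h P r :=
  h.1 (funext fun n => by rw [c_cut h, c_io_mul h, c_io_mul h, c_cut h]; split_ifs <;> simp)

theorem cut_eq (P : ℤ → Prop) [DecidablePred P] {r : R} (hr : ∀ n, ¬ P n → c r n = 0) :
    cut h P r = r :=
  h.1 (funext fun n => by rw [c_cut h]; split_ifs with e; exacts [rfl, (hr n e).symm])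

include h in
theorem c_mul_zero {r s : R} {n : ℤ} (hz : ∀ i, c r i = 0 ∨ c s (n - i) = 0) : c (r * s) n = 0 := by
  rw [h.2.2.2, finsum_eq_zero_of_forall_eq_zero]
  intro i
  rcases hz i with e | e <;> simp [e]

include h in
theorem lo_mul {r s : R} {a b : ℤ} (hr : ∀ n < a, c r n = 0) (hs : ∀ n < b, c s n = 0) :
    ∀ n < a + b, c (r * s) n = 0 := fun n hn => c_mul_zero h fun i => by
  by_cases e : i < a
  · exact Or.inl (hr i e)
  · exact Or.inr (hs _ (by omega))

/-- the series in `x ^ m` -/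
def sub (m : ℤ) : Subring R where
  carrier := {r | ∀ n, ¬ m ∣ n → c r n = 0}
  mul_mem' := fun {r s} hr hs n hn => c_mul_zero h fun i => by
    by_cases e : m ∣ i
    · exact Or.inr (hs _ fun e' => hn (by simpa using e'.add e))
    · exact Or.inl (hr i e)
  one_mem' := fun n hn => by
    rw [h.c_one, Pi.single_eq_of_ne]
    rintro rfl
    exact hn (dvd_zero m)
  add_mem' := fun {r s} hr hs n hn => by rw [h.2.2.1, hr n hn, hs n hn, add_zero]
  zero_mem' := fun n _ => h.c_zero n
  neg_mem' := fun {r} hr n hn => by rw [h.c_neg, hr n hn, neg_zero]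

theorem mo_mem {m n : ℤ} (a : A) (hn : m ∣ n) : mo h a n ∈ sub h m := fun k hk => by
  rw [c_mo h, Pi.single_eq_of_ne]
  rintro rfl
  exact hk hn

theorem cut_mem (P : ℤ → Prop) [DecidablePred P] {m : ℤ} {r : R} (hr : r ∈ sub h m) :
    cut h P r ∈ sub h m := fun n hn => by rw [c_cut h, hr n hn, ite_self]

theorem semi_sub (hR : IsSemisimpleRing (R ⧸ Ring.jacobson R)) (m : ℤ) :
    IsSemisimpleRing (sub h m ⧸ Ring.jacobson (sub h m)) := by
  refine descend (sub h m).subtype ((cut h (m ∣ ·)).codRestrict (sub h m)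
    fun r n hn => by rw [c_cut h, if_neg hn]) (fun r s => Subtype.ext ?_) (Subtype.ext ?_) hR
  · change cut h (m ∣ ·) (r * s) = cut h (m ∣ ·) r * s
    refine h.1 (funext fun n => ?_)
    rw [c_cut h]
    split_ifs with e
    · rw [h.2.2.2, h.2.2.2]
      refine finsum_congr fun i => ?_
      rw [c_cut h]
      split_ifs with e'
      · rfl
      · rw [s.2 _ fun e2 => e' (by simpa using e.sub e2), map_zero, mul_zero, mul_zero]
    · refine (c_mul_zero h fun i => ?_).symm
      rw [c_cut h]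
      split_ifs with e'
      · exact Or.inr (s.2 _ fun e2 => e (by simpa using e2.add e'))
      · exact Or.inl rfl
  · exact cut_eq h _ (sub h m).one_mem

theorem semi_base (h : IsSkewLaurentRing φ c) (hR : IsSemisimpleRing (R ⧸ Ring.jacobson R)) :
    IsSemisimpleRing (A ⧸ Ring.jacobson A) := by
  refine descend (io h) (h.coeffHom 0) (fun r s => ?_) ?_ hR
  · change c (r * mo h s 0) 0 = c r 0 * s
    rw [h.2.2.2, finsum_eq_single _ 0 fun i hi => by
      rw [c_mo h, Pi.single_eq_of_ne (by omega), map_zero, mul_zero], c_mo h]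
    simp
  · change c 1 0 = 1
    rw [h.c_one, Pi.single_eq_same]

theorem aut_mem (ψ : RingAut A) {a : A} (ha : a ∈ Ring.jacobson A) : ψ a ∈ Ring.jacobson A :=
  have : RingHomSurjective (ψ : A →+* A) := ⟨ψ.surjective⟩
  Ring.le_comap_jacobson (f := (ψ : A →+* A)) ha

/-- the series with coefficients in the radical -/
def rad : Ideal R where
  carrier := {r | ∀ n, c r n ∈ Ring.jacobson A}
  add_mem' := fun {r s} hr hs n => by rw [h.2.2.1]; exact Ideal.add_mem _ (hr n) (hs n)
  zero_mem' := fun n => by rw [h.c_zero]; exact Ideal.zero_mem _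
  smul_mem' := fun s r hr n => by
    rw [smul_eq_mul, h.2.2.2]
    exact finsum_induction (· ∈ Ring.jacobson A) (Ideal.zero_mem _) (fun _ _ => Ideal.add_mem _)
      fun i => Ideal.mul_mem_left _ _ (aut_mem _ (hr _))

instance : (rad h).IsTwoSided := ⟨fun {r} s hr n => by
  rw [h.2.2.2]
  exact finsum_induction (· ∈ Ring.jacobson A) (Ideal.zero_mem _) (fun _ _ => Ideal.add_mem _)
    fun i => Ideal.mul_mem_right _ _ (hr _)⟩

theorem mo_rad {a : A} (ha : a ∈ Ring.jacobson A) (n : ℤ) : mo h a n ∈ rad h := fun k => by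
  rw [c_mo h, Pi.single_apply]
  split_ifs
  exacts [ha, Ideal.zero_mem _]

theorem cut_rad (P : ℤ → Prop) [DecidablePred P] {r : R} (hr : r ∈ rad h) : cut h P r ∈ rad h :=
  fun n => by
    rw [c_cut h]
    split_ifs
    exacts [hr n, Ideal.zero_mem _]

theorem expand {m : ℤ} (hm : 0 < m) (N : ℤ) {r : R} (hr : r ∈ sub h m)
    (hl : ∀ n < -(m * N), c r n = 0) : ∀ n < m * N,
    c (r - ∑ k : Finset.Ico (-N) N, io h (c r (m * k)) * mo h 1 (m * k)) n = 0 := by
  intro n hn
  have e : ∀ k : ℤ, c (io h (c r (m * k)) * mo h 1 (m * k)) n =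
      if n = m * k then c r n else 0 := fun k => by
    rw [c_io_mul h, c_mo h, Pi.single_apply]
    split_ifs with e
    · rw [e, mul_one]
    · rw [mul_zero]
  have e2 := map_sum (h.coeffHom n)
    (fun k : Finset.Ico (-N) N => io h (c r (m * k)) * mo h 1 (m * k)) Finset.univ
  rw [h.c_sub, sub_eq_zero]
  refine Eq.trans ?_ (e2.trans (Finset.sum_congr rfl fun k _ => e k)).symm
  by_cases z : c r n = 0
  · simp [z]
  obtain ⟨k, rfl⟩ : m ∣ n := by_contra fun d => z (hr n d)
  have k1 : -N ≤ k := by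
    by_contra d
    exact z (hl _ (by nlinarith))
  have k2 : k < N := lt_of_mul_lt_mul_left hn hm.le
  rw [Finset.sum_eq_single ⟨k, Finset.mem_Ico.2 ⟨k1, k2⟩⟩ (fun l _ hl => if_neg fun e =>
    hl (Subtype.ext (mul_left_cancel₀ hm.ne' e).symm)) (by simp), if_pos rfl]

/-- the idempotent matrix attached to a unit -/
theorem matrix_idem {m : ℤ} (hm : 0 < m) (N : ℤ) {g g' : R} (hg : g ∈ sub h m)
    (hg' : g' ∈ sub h m) (e1 : g * g' = 1) (e2 : g' * g = 1) (l1 : ∀ n < -(m * N), c g n = 0)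
    (l2 : ∀ n < -(m * N), c g' n = 0) (j l : Finset.Ico (-N) N) :
    ∑ k : Finset.Ico (-N) N, c (cut h (0 ≤ ·) (mo h 1 (m * j) * g') * g) (m * k) *
      c (cut h (0 ≤ ·) (mo h 1 (m * k) * g') * g) (m * l) =
      c (cut h (0 ≤ ·) (mo h 1 (m * j) * g') * g) (m * l) := by
  let q : R →+ R := (AddMonoidHom.mulRight g).comp ((cut h (0 ≤ ·)).comp (AddMonoidHom.mulRight g'))
  have hq : ∀ r, q r = cut h (0 ≤ ·) (r * g') * g := fun _ => rfl
  have lo : ∀ r, ∀ n < 0, c (cut h (0 ≤ ·) r) n = 0 := fun r n hn => by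
    rw [c_cut h, if_neg hn.not_ge]
  have q1 : ∀ r, q (q r) = q r := fun r => by
    rw [hq, hq, mul_assoc, e1, mul_one, cut_eq h _ fun n hn => lo _ n (not_le.1 hn)]
  have q2 : ∀ r, (∀ n < m * N, c r n = 0) → q r = r := fun r hr => by
    rw [hq, cut_eq h _ fun n hn => lo_mul h hr l2 n (by omega), mul_assoc, e2, mul_one]
  have q3 : ∀ a r, q (io h a * r) = io h a * q r := fun a r => by
    rw [hq, hq, mul_assoc, cut_io h, mul_assoc]
  have hl : (l : ℤ) < N := (Finset.mem_Ico.1 l.2).2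
  simp only [← hq]
  have t := expand h hm N (r := q (mo h 1 (m * j))) ((sub h m).mul_mem
    (cut_mem h _ ((sub h m).mul_mem (mo_mem h 1 (dvd_mul_right _ _)) hg')) hg)
    fun n hn => lo_mul h (lo _) l1 n (by omega)
  have t2 := q2 _ t
  rw [map_sub, q1, sub_right_inj, map_sum] at t2
  have t3 := t (m * l) (by nlinarith)
  rw [← t2, h.c_sub, sub_eq_zero] at t3
  rw [t3]
  refine Eq.trans ?_ (map_sum (h.coeffHom (m * l)) _ Finset.univ).symm
  refine Finset.sum_congr rfl fun k _ => ?_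
  rw [q3]
  exact (c_io_mul h _ _ _).symm

include h in
theorem lift_core (hR : IsSemisimpleRing (R ⧸ Ring.jacobson R))
    {m : ℤ} (hm : 0 < m) {p a b : A} (h0 : p * p - p ∈ Ring.jacobson A)
    (h1 : p + b * (φ ^ (-m)) a - 1 ∈ Ring.jacobson A) (h2 : p * a ∈ Ring.jacobson A)
    (h3 : b * (φ ^ (-m)) p ∈ Ring.jacobson A) : ∃ f : A, f * f = f ∧ f - p ∈ Ring.jacobson A := by
  obtain ⟨s, hs⟩ : ∃ s, s = mo h p 0 + mo h a m := ⟨_, rfl⟩
  obtain ⟨t, ht⟩ : ∃ t, t = mo h p 0 + mo h b (-m) := ⟨_, rfl⟩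
  have ms : s ∈ sub h m := hs ▸ add_mem (mo_mem h _ (dvd_zero m)) (mo_mem h _ dvd_rfl)
  have mt : t ∈ sub h m := ht ▸ add_mem (mo_mem h _ (dvd_zero m)) (mo_mem h _ (dvd_neg.2 dvd_rfl))
  have ps : mo h p 0 * s - mo h p 0 ∈ rad h := by
    rw [hs, mul_add, mo_mul_mo, mo_mul_mo, add_sub_right_comm, add_zero, ← mo_sub]
    exact add_mem (mo_rad h (by simpa using h0) _) (mo_rad h (by simpa using h2) _)
  have ts : t * s - 1 ∈ rad h := by
    have : t * s - 1 = (mo h p 0 * s - mo h p 0) + mo h (b * (φ ^ (-m)) p) (-m) +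
        mo h (p + b * (φ ^ (-m)) a - 1) 0 := by
      rw [ht, add_mul, hs, mul_add (mo h b _), mo_mul_mo h b, mo_mul_mo h b, mo_sub, mo_add,
        mo_one, add_zero, neg_add_cancel]
      abel
    rw [this]
    exact add_mem (add_mem ps (mo_rad h h3 _)) (mo_rad h h1 _)
  obtain ⟨u, hu⟩ := lift_unit (semi_sub h hR m) ((rad h).comap (sub h m).subtype)
    (fun x hx y => (rad h).mul_mem_right (y : R) hx) (g := ⟨s, ms⟩) (h := ⟨t, mt⟩) ts
  obtain ⟨g, g', mg, mg', e1, e2, d1⟩ : ∃ g g', g ∈ sub h m ∧ g' ∈ sub h m ∧ g * g' = 1 ∧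
      g' * g = 1 ∧ g - s ∈ rad h :=
    ⟨_, _, u.1.2, u.2.2, congrArg Subtype.val u.3, congrArg Subtype.val u.4, hu⟩
  have d2 : g' - t ∈ rad h := by
    have : g' - t = -((t * s - 1) * g' + t * (g - s) * g') := by
      rw [mul_sub t, sub_mul (t * g), mul_assoc t g, e1]
      noncomm_ring
    rw [this]
    exact neg_mem (add_mem ((rad h).mul_mem_right _ ts)
      ((rad h).mul_mem_right _ ((rad h).mul_mem_left _ d1)))
  have key : ∀ x y, cut h (0 ≤ ·) (x * t) * s - y ∈ rad h →
      cut h (0 ≤ ·) (x * g') * g - y ∈ rad h := fun x y hy => by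
    have : cut h (0 ≤ ·) (x * g') * g - y = cut h (0 ≤ ·) (x * (g' - t)) * g +
        cut h (0 ≤ ·) (x * t) * (g - s) + (cut h (0 ≤ ·) (x * t) * s - y) := by
      rw [mul_sub x, map_sub]
      noncomm_ring
    rw [this]
    exact add_mem (add_mem ((rad h).mul_mem_right _ (cut_rad h _ ((rad h).mul_mem_left _ d2)))
      ((rad h).mul_mem_left _ d1)) hy
  have ct : ∀ n k, c (mo h 1 n * t) k = Pi.single (M := fun _ => A) n ((φ ^ n) p) k +
      Pi.single (M := fun _ => A) (n - m) ((φ ^ n) b) k := fun n k => by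
    rw [ht, mul_add, mo_mul_mo, mo_mul_mo, h.2.2.1, c_mo h, c_mo h, one_mul, one_mul, add_zero,
      ← sub_eq_add_neg]
  have r1 : ∀ j, 0 < j → cut h (0 ≤ ·) (mo h 1 (m * j) * g') * g - mo h 1 (m * j) ∈ rad h :=
    fun j hj => key _ _ (by
      rw [cut_eq h _ fun n hn => by
        rw [ct, Pi.single_eq_of_ne (by nlinarith), Pi.single_eq_of_ne (by nlinarith), add_zero],
        mul_assoc, ← mul_sub_one]
      exact (rad h).mul_mem_left _ ts)
  have r2 : ∀ j, j < 0 → cut h (0 ≤ ·) (mo h 1 (m * j) * g') * g - 0 ∈ rad h :=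
    fun j hj => key _ _ (by
      have : cut h (0 ≤ ·) (mo h 1 (m * j) * t) = 0 := h.1 (funext fun n => by
        rw [c_cut h, h.c_zero]
        split_ifs with hn
        · rw [ct, Pi.single_eq_of_ne (by nlinarith), Pi.single_eq_of_ne (by nlinarith), add_zero]
        · rfl)
      rw [this, zero_mul, sub_zero]
      exact zero_mem _)
  have r3 : cut h (0 ≤ ·) (mo h 1 (m * 0) * g') * g - mo h p 0 ∈ rad h := key _ _ (by
    have : cut h (0 ≤ ·) (mo h 1 (m * 0) * t) = mo h p 0 := h.1 (funext fun n => by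
      rw [c_cut h, c_mo h, mul_zero]
      split_ifs with hn
      · rw [ct, Pi.single_eq_of_ne (i := 0 - m) (by omega), add_zero]
        simp
      · rw [Pi.single_eq_of_ne (by omega)])
    rwa [this])
  obtain ⟨n1, b1⟩ := h.bdd g
  obtain ⟨n2, b2⟩ := h.bdd g'
  obtain ⟨N, hN, N1, N2⟩ : ∃ N : ℤ, 0 < N ∧ -N ≤ n1 ∧ -N ≤ n2 :=
    ⟨max 1 (max (-n1) (-n2)), by omega, by omega, by omega⟩
  have hmN : N ≤ m * N := by nlinarith
  obtain ⟨f, hf, hf'⟩ := corner (Matrix.of fun j k : Finset.Ico (-N) N =>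
      c (cut h (0 ≤ ·) (mo h 1 (m * j) * g') * g) (m * k))
    (Matrix.ext fun j l => matrix_idem h hm N mg mg' e1 e2 (fun n hn => b1 n (by omega))
      (fun n hn => b2 n (by omega)) j l)
    ⟨0, Finset.mem_Ico.2 ⟨by omega, hN⟩⟩ (fun k => (0 : ℤ) < k) (fun i k hk => by
      have hk' : (k : ℤ) ≠ 0 := fun e => hk (Subtype.ext e)
      rw [Matrix.of_apply]
      rcases lt_trichotomy (i : ℤ) 0 with hi | hi | hi
      · have := r2 i hi (m * k)
        rw [h.c_sub, h.c_zero] at this
        rwa [if_neg (by rintro ⟨rfl, e⟩; omega)]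
      · have := r3 (m * k)
        rw [h.c_sub, c_mo h, Pi.single_eq_of_ne (mul_ne_zero hm.ne' hk')] at this
        rwa [if_neg (by rintro ⟨rfl, e⟩; omega), hi]
      · have := r1 i hi (m * k)
        rw [h.c_sub, c_mo h] at this
        by_cases e : i = k
        · rw [e, Pi.single_eq_same] at this
          rwa [if_pos ⟨e, e ▸ hi⟩, e]
        · rw [Pi.single_eq_of_ne fun e' =>
            e (Subtype.ext (mul_left_cancel₀ hm.ne' e').symm)] at this
          rwa [if_neg fun e' => e e'.1])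
  refine ⟨f, hf, ?_⟩
  have := r3 (m * 0)
  rw [h.c_sub, c_mo h, mul_zero, Pi.single_eq_same] at this
  rw [Matrix.of_apply, mul_zero] at hf'
  have := add_mem hf' this
  rwa [sub_add_sub_cancel] at this

end laurent

end Pool.Agent.MP_669787_al.Sp

open Pool.Agent.MP_669787_al Sp

namespace Pool.Agent.Results.MP_669787_al.Semiperfect

theorem result {A R : Type} [Ring A] [Ring R] (φ : RingAut A) (c : R → ℤ → A)
    (h : IsSkewLaurentRing φ c) (hR : IsSemisimpleRing (R ⧸ Ring.jacobson R)) :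
    (IsSemisimpleRing (A ⧸ Ring.jacobson A) ∧ IsArtinianRing (A ⧸ Ring.jacobson A)) ∧
      ∀ e : A ⧸ Ring.jacobson A, IsIdempotentElem e →
        ∃ f : A, IsIdempotentElem f ∧ Ideal.Quotient.mk (Ring.jacobson A) f = e := by
  have hA := semi_base h hR
  refine ⟨⟨hA, inferInstance⟩, fun e he => ?_⟩
  obtain ⟨p, rfl⟩ := Ideal.Quotient.mk_surjective e
  let k := Ideal.Quotient.mk (Ring.jacobson A)
  have tr : ∀ (ψ : RingAut A) {x y : A}, k x = k y → k (ψ x) = k (ψ y) := fun ψ x y e =>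
    Ideal.Quotient.eq.2 (by rw [← map_sub]; exact aut_mem ψ (Ideal.Quotient.eq.1 e))
  have hp : k (p * p) = k p := he.eq
  obtain ⟨i, j, hij, u, hu⟩ := pigeon (fun i : ℕ => k ((φ ^ (i : ℤ)) p)) fun i => by
    rw [← map_mul, ← map_mul]; exact tr _ hp
  obtain ⟨U, hU⟩ := Ideal.Quotient.mk_surjective u.1
  obtain ⟨U', hU'⟩ := Ideal.Quotient.mk_surjective u.2
  have a1 : k (U * (φ ^ (i : ℤ)) p) = k ((φ ^ (j : ℤ)) p * U) := by
    rw [map_mul, map_mul, hU]; exact hu.eq
  have a2 : k (U * U') = k 1 := by rw [map_mul, hU, hU', map_one]; exact u.3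
  have cm : ∀ (a b : ℤ) (x : A), (φ ^ a) ((φ ^ b) x) = (φ ^ (a + b)) x := fun a b x => by
    rw [zpow_add]; rfl
  have b1 := tr (φ ^ (-j : ℤ)) a1
  have b2 := tr (φ ^ (-j : ℤ)) a2
  rw [map_mul, map_mul, map_mul, map_mul, cm, cm, neg_add_cancel,
    show (-j + i : ℤ) = -(j - i) by ring] at b1
  rw [map_mul, map_mul, map_one, map_one] at b2
  have z : (φ ^ (0 : ℤ)) p = p := by simp
  rw [z] at b1
  rw [map_mul] at hp
  have z' : ∀ x, (φ ^ (-(j - i) : ℤ)) ((φ ^ (j - i : ℤ)) x) = x := fun x => by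
    rw [cm, neg_add_cancel]; simp
  refine (lift_core h hR (m := j - i) (by omega) (p := p)
    (a := (1 - p) * (φ ^ (j - i : ℤ)) ((φ ^ (-j : ℤ)) U')) (b := (1 - p) * (φ ^ (-j : ℤ)) U)
    (Ideal.Quotient.eq.1 he.eq) (Ideal.Quotient.eq.1 ?_) (Ideal.Quotient.eq_zero_iff_mem.1 ?_)
    (Ideal.Quotient.eq_zero_iff_mem.1 ?_)).imp fun f hf => ⟨hf.1, Ideal.Quotient.eq.2 hf.2⟩
  · change k _ = k _
    simp only [map_add, map_mul, map_sub, map_one, z']
    rw [mul_assoc, ← mul_assoc (k _) (1 - _), mul_sub (k _), mul_one, b1, sub_mul (k _),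
      mul_assoc, b2, mul_one, mul_sub, mul_one, sub_mul, one_mul, hp, sub_self, sub_zero,
      add_sub_cancel]
  · change k _ = 0
    simp only [map_mul, map_sub, map_one]
    rw [← mul_assoc, mul_sub, mul_one, hp, sub_self, zero_mul]
  · change k _ = 0
    simp only [map_mul, map_sub, map_one]
    rw [mul_assoc, b1, ← mul_assoc, sub_mul, one_mul, hp, sub_self, zero_mul]

end Pool.Agent.Results.MP_669787_al.Semiperfect
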